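import Pool.Agent.W223.RA.Stms

set_option autoImplicit false

/-!
# Project RA, part FH: count of the radicals with a large prime
-/

namespace Pool.Agent.W300.RA.FH
open Finset Filter Topology
open Pool.Agent.W223.RA

noncomputable section

theorem one_lt_log {X : ℝ} (hX : 3 ≤ X) : 1 < Real.log X := by
  rw [Real.lt_log_iff_exp_lt (by linarith)]
  have := Real.exp_one_lt_d9
  linarith

theorem ev (κ : ℝ) (hκ : 0 < κ) : ∀ᶠ X : ℝ in atTop,
    204 * Real.log X ^ 4 * Real.exp (12 * Real.log 2 * Real.log X / Real.log (Real.log X)) ≤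
      X ^ κ := by
  have h1 : ∀ᶠ X : ℝ in atTop, 24 * Real.log 2 / κ ≤ Real.log (Real.log X) :=
    (Real.tendsto_log_atTop.comp Real.tendsto_log_atTop).eventually_ge_atTop _
  have h2 : ∀ᶠ X : ℝ in atTop, ‖Real.log X ^ (4 : ℝ)‖ ≤ 1 / 204 * ‖X ^ (κ / 2)‖ :=
    (isLittleO_log_rpow_rpow_atTop 4 (by positivity : 0 < κ / 2)).def (by norm_num)
  filter_upwards [h1, h2, eventually_ge_atTop 3] with X a1 a2 a3
  have hX0 : 0 < X := by linarith
  have hL : 1 < Real.log X := one_lt_log a3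
  have hLL : 0 < Real.log (Real.log X) := Real.log_pos hL
  have e4 : Real.log X ^ (4 : ℝ) = Real.log X ^ 4 := by
    rw [← Real.rpow_natCast]; norm_num
  rw [e4, Real.norm_eq_abs, Real.norm_eq_abs, abs_of_pos (by positivity),
    abs_of_pos (by positivity)] at a2
  have h3 : 12 * Real.log 2 * Real.log X / Real.log (Real.log X) ≤ Real.log X * (κ / 2) := by
    rw [div_le_iff₀ hLL]
    rw [div_le_iff₀ hκ] at a1
    nlinarith
  have h4 : Real.exp (12 * Real.log 2 * Real.log X / Real.log (Real.log X)) ≤ X ^ (κ / 2) := by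
    rw [Real.rpow_def_of_pos hX0]
    exact Real.exp_le_exp.mpr h3
  have h5 : X ^ κ = X ^ (κ / 2) * X ^ (κ / 2) := by
    rw [← Real.rpow_add hX0]; congr 1; ring
  rw [h5]
  have h6 : 204 * Real.log X ^ 4 ≤ X ^ (κ / 2) := by linarith
  exact mul_le_mul h6 h4 (Real.exp_pos _).le (by positivity)

theorem scale_ex {l0 L : ℝ} (h0 : 0 < l0) (h : l0 ≤ L) :
    ∃ i : ℕ, l0 * (33 / 32) ^ i ≤ L ∧ L ≤ 33 / 32 * (l0 * (33 / 32) ^ i) ∧
      (33 / 32 : ℝ) ^ i ≤ L / l0 := by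
  obtain ⟨n, h1, h2⟩ := exists_nat_pow_near (x := L / l0) (y := (33 / 32 : ℝ))
    (by rw [le_div_iff₀ h0]; linarith) (by norm_num)
  refine ⟨n, ?_, ?_, h1⟩
  · rw [le_div_iff₀ h0] at h1
    linarith
  · rw [div_lt_iff₀ h0, pow_succ] at h2
    linarith

theorem pow_bd {i : ℕ} {X : ℝ} (h : (33 / 32 : ℝ) ^ i ≤ X) :
    (i : ℝ) ≤ 33 * Real.log X := by
  have h1 : (1 / 33 : ℝ) ≤ Real.log (33 / 32) := by
    have := Real.one_sub_inv_le_log_of_pos (show (0 : ℝ) < 33 / 32 by norm_num)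
    norm_num at this ⊢
    linarith
  have h2 : (i : ℝ) * Real.log (33 / 32) ≤ Real.log X := by
    rw [← Real.log_pow]
    exact Real.log_le_log (by positivity) h
  have h3 : (0 : ℝ) ≤ i := Nat.cast_nonneg i
  nlinarith

theorem incl {δ X : ℝ} (hδ0 : 0 < δ) (hδ3 : δ < 1 / 3) (hX : 3 ≤ X) {R : ℕ}
    (hR : R ∈ RadSet X (fun a b => Real.log X ^ ((9 : ℝ) / 4) ≤ Real.log ((a + b : ℕ) : ℝ) ∧
      Real.log ((a + b : ℕ) : ℝ) ≤ X ^ δ ∧
      ∃ p ∈ (N3 a b).primeFactors,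
        (1 + 7 * δ) / 10 * ∑ p ∈ (N3 a b).primeFactors, Real.log p ≤ Real.log p)) :
    ∃ m i e p : ℕ, 1 ≤ m ∧ (m : ℝ) ≤ X ^ (1 - (1 + 7 * δ) / 10) ∧
      ((m.primeFactors.card + 1 : ℕ) : ℝ) ≤ Real.log X / (10 * Real.log (Real.log X)) ∧
      (i : ℝ) ≤ 33 * Real.log X ∧ (e : ℝ) ≤ 5 * X ^ δ ∧
      Real.log X ^ ((9 : ℝ) / 4) * (33 / 32) ^ i ≤ X ∧
      p ∈ PigSet X m.primeFactors (Real.log X ^ ((9 : ℝ) / 4) * (33 / 32) ^ i) e ∧ p * m = R := by
  obtain ⟨hRX, hω, a, b, hT, hprod, hL0, hL1, p, hp, hpl⟩ := hR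
  have hX0 : 0 < X := by linarith
  have hL : 1 < Real.log X := one_lt_log hX
  set P := (N3 a b).primeFactors with hP
  have hPp : ∀ q ∈ P, q.Prime := fun q hq => Nat.prime_of_mem_primeFactors hq
  set S := P.erase p with hS
  have hSp : ∀ q ∈ S, q.Prime := fun q hq => hPp q (Finset.mem_of_mem_erase hq)
  set m := ∏ q ∈ S, q with hm
  have hpP : p.Prime := hPp p hp
  have hm0 : 0 < m := Finset.prod_pos (fun q hq => (hSp q hq).pos)
  have hpm : p * m = R := by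
    rw [← hprod]
    exact Finset.mul_prod_erase P (fun q => q) hp
  have hmS : m.primeFactors = S := Nat.primeFactors_prod hSp
  have hRP : R.primeFactors = P := by
    rw [← hprod]
    exact Nat.primeFactors_prod hPp
  have hR0 : 0 < R := by rw [← hpm]; exact Nat.mul_pos hpP.pos hm0
  have hlR : Real.log R = ∑ q ∈ P, Real.log q := by
    rw [← hprod, Nat.cast_prod, Real.log_prod]
    intro q hq
    exact_mod_cast (hPp q hq).ne_zero
  have hlR2 : Real.log R = Real.log p + Real.log m := by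
    rw [← hpm, Nat.cast_mul, Real.log_mul (by exact_mod_cast hpP.ne_zero)
      (by exact_mod_cast hm0.ne')]
  rw [← hlR] at hpl
  have hlRX : Real.log R ≤ Real.log X := Real.log_le_log (by exact_mod_cast hR0) hRX
  have hlR0 : 0 ≤ Real.log R := Real.log_nonneg (by exact_mod_cast hR0)
  have hlm : Real.log m ≤ (1 - (1 + 7 * δ) / 10) * Real.log X := by
    have h1 : Real.log m ≤ (1 - (1 + 7 * δ) / 10) * Real.log R := by linarith
    have h2 : 0 ≤ 1 - (1 + 7 * δ) / 10 := by linarith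
    exact h1.trans (mul_le_mul_of_nonneg_left hlRX h2)
  have hmX : (m : ℝ) ≤ X ^ (1 - (1 + 7 * δ) / 10) := by
    rw [Real.rpow_def_of_pos hX0, ← Real.log_le_iff_le_exp (by exact_mod_cast hm0)]
    linarith
  have hab : 0 < a + b := by have := hT.1; omega
  have hN0 : N3 a b ≠ 0 := by
    have h1 := hT.1
    have h2 := hT.2.1
    unfold N3
    have h3 : 0 < b := by omega
    positivity
  have hN3 : N3 a b ≤ (a + b) ^ 3 := by
    unfold N3
    have h1 : a ≤ a + b := Nat.le_add_right _ _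
    have h2 : b ≤ a + b := Nat.le_add_left _ _
    calc a * b * (a + b) ≤ (a + b) * (a + b) * (a + b) :=
          Nat.mul_le_mul_right _ (Nat.mul_le_mul h1 h2)
      _ = (a + b) ^ 3 := by ring
  have hl0 : 0 < Real.log X ^ ((9 : ℝ) / 4) := Real.rpow_pos_of_pos (by linarith) _
  have hl1 : 1 ≤ Real.log X ^ ((9 : ℝ) / 4) := Real.one_le_rpow hL.le (by norm_num)
  obtain ⟨i, hi1, hi2, hi3⟩ := scale_ex hl0 hL0
  have hXδ : X ^ δ ≤ X := by
    calc X ^ δ ≤ X ^ (1 : ℝ) := Real.rpow_le_rpow_of_exponent_le (by linarith) (by linarith)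
      _ = X := Real.rpow_one X
  have hLX : Real.log ((a + b : ℕ) : ℝ) ≤ X := hL1.trans hXδ
  have hlab : 0 ≤ Real.log ((a + b : ℕ) : ℝ) := Real.log_nonneg (by exact_mod_cast hab)
  have he : ((N3 a b).factorization p : ℝ) ≤ 5 * X ^ δ := by
    set e := (N3 a b).factorization p with he
    have h1 : 2 ^ e ≤ (a + b) ^ 3 := by
      calc 2 ^ e ≤ p ^ e := Nat.pow_le_pow_left hpP.two_le e
        _ ≤ N3 a b := Nat.le_of_dvd (Nat.pos_of_ne_zero hN0) (Nat.ordProj_dvd _ _)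
        _ ≤ _ := hN3
    have h2 : (2 : ℝ) ^ e ≤ ((a + b : ℕ) : ℝ) ^ 3 := by exact_mod_cast h1
    have h3 := Real.log_le_log (by positivity) h2
    rw [Real.log_pow, Real.log_pow] at h3
    have h4 := Real.log_two_gt_d9
    have h5 : (0 : ℝ) ≤ e := Nat.cast_nonneg e
    push_cast at h3 hL1 ⊢
    nlinarith
  refine ⟨m, i, (N3 a b).factorization p, p, hm0, hmX, ?_, ?_, he, hi1.trans hLX, ?_, hpm⟩
  · rw [hmS, hS, Finset.card_erase_add_one hp, ← hRP]
    exact hω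
  · apply pow_bd
    refine hi3.trans ?_
    rw [div_le_iff₀ hl0]
    nlinarith
  · rw [hmS]
    refine ⟨hpP, Finset.notMem_erase _ _, ?_, a, b, hT, ⟨hi1, hi2⟩, ?_, rfl⟩
    · have h1 : p ≤ R := by
        rw [← hpm]
        exact Nat.le_mul_of_pos_right p hm0
      exact le_trans (by exact_mod_cast h1) hRX
    · rw [hS, Finset.insert_erase hp]

theorem pig_fin (X : ℝ) (S : Finset ℕ) (l : ℝ) (e : ℕ) : (PigSet X S l e).Finite := by
  apply (Set.finite_Iic ⌊X⌋₊).subset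
  rintro p ⟨-, -, h, -⟩
  exact Nat.le_floor h

/-- **count of the radicals with a large prime** -/
theorem tFH (hPIG : StmtPIG) : StmtFH := by
  classical
  intro δ hδ hδ3
  obtain ⟨X1, hX1, hP⟩ := hPIG
  have hκ : 0 < (1 - 3 * δ) / 110 := by linarith
  obtain ⟨X2, hX2⟩ := eventually_atTop.mp (ev _ hκ)
  refine ⟨max X1 X2, hX1.trans (le_max_left _ _), ?_⟩
  intro X hX
  have hXX1 : X1 ≤ X := (le_max_left _ _).trans hX
  have hX3 : 3 ≤ X := hX1.trans hXX1
  have hX0 : 0 < X := by linarith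
  have hE := hX2 X ((le_max_right _ _).trans hX)
  have hL : 1 < Real.log X := one_lt_log hX3
  have hLL : 0 < Real.log (Real.log X) := Real.log_pos hL
  set w := Real.log X / (10 * Real.log (Real.log X)) with hw
  set l0 := Real.log X ^ ((9 : ℝ) / 4) with hl0
  have hl0p : 0 < l0 := Real.rpow_pos_of_pos (by linarith) _
  set B : ℝ := Real.exp (12 * Real.log 2 * Real.log X / Real.log (Real.log X)) *
    Real.log X ^ 3 with hB
  have hB0 : 0 < B := by positivity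
  set T : Finset ((ℕ × ℕ) × ℕ) := ((Icc 1 ⌊X ^ (1 - (1 + 7 * δ) / 10)⌋₊ ×ˢ
    range (⌊33 * Real.log X⌋₊ + 1)) ×ˢ range (⌊5 * X ^ δ⌋₊ + 1)).filter
    (fun t => ((t.1.1.primeFactors.card + 1 : ℕ) : ℝ) ≤ w ∧ l0 * (33 / 32) ^ t.1.2 ≤ X) with hTdef
  let G : (ℕ × ℕ) × ℕ → Finset ℕ := fun t =>
    (pig_fin X t.1.1.primeFactors (l0 * (33 / 32) ^ t.1.2) t.2).toFinset.image
      (fun p => p * t.1.1)
  have hsub : RadSet X (fun a b => Real.log X ^ ((9 : ℝ) / 4) ≤ Real.log ((a + b : ℕ) : ℝ) ∧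
      Real.log ((a + b : ℕ) : ℝ) ≤ X ^ δ ∧
      ∃ p ∈ (N3 a b).primeFactors,
        (1 + 7 * δ) / 10 * ∑ p ∈ (N3 a b).primeFactors, Real.log p ≤ Real.log p) ⊆
      ↑(T.biUnion G) := by
    intro R hR
    obtain ⟨m, i, e, p, h1, h2, h3, h4, h5, h6, h7, h8⟩ := incl hδ hδ3 hX3 hR
    rw [Finset.mem_coe, Finset.mem_biUnion]
    refine ⟨((m, i), e), ?_, ?_⟩
    · rw [hTdef, Finset.mem_filter, Finset.mem_product, Finset.mem_product, Finset.mem_Icc,
        Finset.mem_range, Finset.mem_range]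
      exact ⟨⟨⟨⟨h1, Nat.le_floor h2⟩, Nat.lt_succ_of_le (Nat.le_floor h4)⟩,
        Nat.lt_succ_of_le (Nat.le_floor h5)⟩, h3, h6⟩
    · rw [Finset.mem_image]
      exact ⟨p, by rw [Set.Finite.mem_toFinset]; exact h7, h8⟩
  have hη0 : 0 ≤ 1 - (1 + 7 * δ) / 10 := by linarith
  have hG : ∀ t ∈ T, ((G t).card : ℝ) ≤ B := by
    intro t ht
    rw [hTdef, Finset.mem_filter, Finset.mem_product, Finset.mem_product, Finset.mem_Icc] at ht
    obtain ⟨⟨⟨⟨h1, h2⟩, h3⟩, h4⟩, h5, h6⟩ := ht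
    have h7 : (t.1.1 : ℝ) ≤ X := by
      have h8 : (t.1.1 : ℝ) ≤ X ^ (1 - (1 + 7 * δ) / 10) :=
        (Nat.le_floor_iff (by positivity)).mp h2
      refine h8.trans ?_
      calc X ^ (1 - (1 + 7 * δ) / 10) ≤ X ^ (1 : ℝ) :=
            Real.rpow_le_rpow_of_exponent_le (by linarith) (by linarith)
        _ = X := Real.rpow_one X
    have h8 : ((∏ q ∈ t.1.1.primeFactors, q : ℕ) : ℝ) ≤ X := by
      refine le_trans ?_ h7
      exact_mod_cast Nat.le_of_dvd h1 (Nat.prod_primeFactors_dvd _)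
    have h9 : l0 ≤ l0 * (33 / 32) ^ t.1.2 :=
      le_mul_of_one_le_right hl0p.le (one_le_pow₀ (by norm_num))
    have h10 := hP X hXX1 t.1.1.primeFactors (l0 * (33 / 32) ^ t.1.2) t.2
      (fun q hq => Nat.prime_of_mem_primeFactors hq) h8 h9 h6
    have h11 : ((G t).card : ℝ) ≤
        ((PigSet X t.1.1.primeFactors (l0 * (33 / 32) ^ t.1.2) t.2).ncard : ℝ) := by
      rw [Set.ncard_eq_toFinset_card _ (pig_fin X t.1.1.primeFactors (l0 * (33 / 32) ^ t.1.2) t.2)]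
      exact_mod_cast Finset.card_image_le
    refine h11.trans (h10.trans ?_)
    rw [hB]
    apply mul_le_mul_of_nonneg_right _ (by positivity)
    have h12 : (2 : ℝ) ^ (120 * (t.1.1.primeFactors.card + 1)) =
        Real.exp (Real.log 2 * ((120 * (t.1.1.primeFactors.card + 1) : ℕ) : ℝ)) := by
      rw [← Real.rpow_def_of_pos (by norm_num : (0 : ℝ) < 2), Real.rpow_natCast]
    rw [h12]
    apply Real.exp_le_exp.mpr
    have h13 : ((120 * (t.1.1.primeFactors.card + 1) : ℕ) : ℝ) ≤ 120 * w := by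
      push_cast at h5 ⊢
      linarith
    have h14 : Real.log 2 * (120 * w) = 12 * Real.log 2 * Real.log X / Real.log (Real.log X) := by
      rw [hw]
      field_simp
      ring
    rw [← h14]
    exact mul_le_mul_of_nonneg_left h13 (Real.log_nonneg (by norm_num))
  have hTc : (T.card : ℝ) ≤ X ^ (1 - (1 + 7 * δ) / 10) * (33 * Real.log X + 1) *
      (5 * X ^ δ + 1) := by
    have h1 : T.card ≤ ⌊X ^ (1 - (1 + 7 * δ) / 10)⌋₊ * (⌊33 * Real.log X⌋₊ + 1) *
        (⌊5 * X ^ δ⌋₊ + 1) := by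
      refine (Finset.card_filter_le _ _).trans ?_
      rw [Finset.card_product, Finset.card_product, Nat.card_Icc, Finset.card_range,
        Finset.card_range, Nat.add_sub_cancel]
    have h2 : ((⌊X ^ (1 - (1 + 7 * δ) / 10)⌋₊ : ℕ) : ℝ) ≤ X ^ (1 - (1 + 7 * δ) / 10) :=
      Nat.floor_le (by positivity)
    have h3 : ((⌊33 * Real.log X⌋₊ : ℕ) : ℝ) ≤ 33 * Real.log X := Nat.floor_le (by linarith)
    have h4 : ((⌊5 * X ^ δ⌋₊ : ℕ) : ℝ) ≤ 5 * X ^ δ := Nat.floor_le (by positivity)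
    calc (T.card : ℝ) ≤ ((⌊X ^ (1 - (1 + 7 * δ) / 10)⌋₊ * (⌊33 * Real.log X⌋₊ + 1) *
          (⌊5 * X ^ δ⌋₊ + 1) : ℕ) : ℝ) := by exact_mod_cast h1
      _ = (⌊X ^ (1 - (1 + 7 * δ) / 10)⌋₊ : ℝ) * ((⌊33 * Real.log X⌋₊ : ℝ) + 1) *
          ((⌊5 * X ^ δ⌋₊ : ℝ) + 1) := by push_cast; ring
      _ ≤ _ := by
        apply mul_le_mul _ (by linarith) (by positivity) (by positivity)
        exact mul_le_mul h2 (by linarith) (by positivity) (by positivity)
  have hXd1 : 1 ≤ X ^ δ := Real.one_le_rpow (by linarith) hδ.le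
  have hcard : ((RadSet X (fun a b => Real.log X ^ ((9 : ℝ) / 4) ≤ Real.log ((a + b : ℕ) : ℝ) ∧
      Real.log ((a + b : ℕ) : ℝ) ≤ X ^ δ ∧
      ∃ p ∈ (N3 a b).primeFactors,
        (1 + 7 * δ) / 10 * ∑ p ∈ (N3 a b).primeFactors, Real.log p ≤ Real.log p)).ncard : ℝ) ≤
      T.card * B := by
    have h1 := Set.ncard_le_ncard hsub (Finset.finite_toSet _)
    rw [Set.ncard_coe_finset] at h1
    have h2 : ((T.biUnion G).card : ℝ) ≤ ∑ t ∈ T, ((G t).card : ℝ) := by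
      exact_mod_cast Finset.card_biUnion_le
    have h3 : ∑ t ∈ T, ((G t).card : ℝ) ≤ ∑ _t ∈ T, B := Finset.sum_le_sum hG
    rw [Finset.sum_const, nsmul_eq_mul] at h3
    exact le_trans (by exact_mod_cast h1) (h2.trans h3)
  refine hcard.trans ?_
  have hfin : X ^ (1 - (1 - 3 * δ) / 11) =
      X ^ (1 - (1 + 7 * δ) / 10) * X ^ δ * X ^ ((1 - 3 * δ) / 110) := by
    rw [← Real.rpow_add hX0, ← Real.rpow_add hX0]
    congr 1
    ring
  rw [hfin]
  have hA0 : 0 < X ^ (1 - (1 + 7 * δ) / 10) := Real.rpow_pos_of_pos hX0 _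
  have s1 : 33 * Real.log X + 1 ≤ 34 * Real.log X := by linarith
  have s2 : 5 * X ^ δ + 1 ≤ 6 * X ^ δ := by linarith
  have s3 : X ^ (1 - (1 + 7 * δ) / 10) * (33 * Real.log X + 1) * (5 * X ^ δ + 1) ≤
      X ^ (1 - (1 + 7 * δ) / 10) * (34 * Real.log X) * (6 * X ^ δ) := by
    apply mul_le_mul _ s2 (by positivity) (by positivity)
    exact mul_le_mul_of_nonneg_left s1 hA0.le
  calc (T.card : ℝ) * B ≤ X ^ (1 - (1 + 7 * δ) / 10) * (34 * Real.log X) * (6 * X ^ δ) * B :=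
        mul_le_mul_of_nonneg_right (hTc.trans s3) hB0.le
    _ = X ^ (1 - (1 + 7 * δ) / 10) * X ^ δ * (204 * Real.log X ^ 4 *
        Real.exp (12 * Real.log 2 * Real.log X / Real.log (Real.log X))) := by
      rw [hB]; ring
    _ ≤ _ := mul_le_mul_of_nonneg_left hE (by positivity)

end

end Pool.Agent.W300.RA.FH
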